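import Pool.Agent.V1129.KO

set_option autoImplicit false

open Pool.Agent.V1129

namespace Pool.Agent.Results.MP_607283_al.KernelLCA

universe u

/-- Every locally compact abelian Hausdorff group is topologically isomorphic to the intersection
of the kernels of all ordinary representations of some locally compact Hausdorff group. -/
theorem result :
    ∀ (A : Type u) [CommGroup A] [TopologicalSpace A] [IsTopologicalGroup A]
      [LocallyCompactSpace A] [T2Space A],
      ∃ (G : Type u) (_ : Group G) (_ : TopologicalSpace G) (_ : IsTopologicalGroup G)
        (_ : LocallyCompactSpace G) (_ : T2Space G), Nonempty (A ≃ₜ* KO G) := by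
  intro A _ _ _ _ _
  exact ⟨Heis.Hs A, inferInstance, inferInstance, inferInstance, inferInstance, inferInstance,
    ⟨Heis.iso⟩⟩

end Pool.Agent.Results.MP_607283_al.KernelLCA
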